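import Mathlib
import Pool.Agent.W966.Vf.Stms

/-!
# VF-EXT: infinitely many values on a fibre (Chevalley)

For subtask 4502 (project VF of helper966).
-/

set_option autoImplicit false

namespace Pool.Agent.W382.VF

open MvPolynomial Pool.Agent.W966.Vf

/-- A finitely generated algebra over an algebraically closed field: every maximal ideal is the
kernel of a `K`-point. -/
theorem exists_point {K B : Type} [Field K] [IsAlgClosed K] [CommRing B] [Algebra K B]
    [Algebra.FiniteType K B] (𝔫 : Ideal B) (h𝔫 : 𝔫.IsMaximal) :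
    ∃ ψ : B →ₐ[K] K, ∀ b ∈ 𝔫, ψ b = 0 := by
  let _ : Field (B ⧸ 𝔫) := Ideal.Quotient.field 𝔫
  have : Algebra.FiniteType K (B ⧸ 𝔫) :=
    Algebra.FiniteType.of_surjective (Ideal.Quotient.mkₐ K 𝔫) (Ideal.Quotient.mkₐ_surjective K 𝔫)
  have : Module.Finite K (B ⧸ 𝔫) := finite_of_finite_type_of_isJacobsonRing K (B ⧸ 𝔫)
  have : Algebra.IsIntegral K (B ⧸ 𝔫) := Algebra.IsIntegral.of_finite K _
  have hbij : Function.Bijective (algebraMap K (B ⧸ 𝔫)) :=
    IsAlgClosed.algebraMap_bijective_of_isIntegral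
  let e : K ≃ₐ[K] (B ⧸ 𝔫) := AlgEquiv.ofBijective (Algebra.ofId K (B ⧸ 𝔫)) hbij
  refine ⟨(e.symm : (B ⧸ 𝔫) →ₐ[K] K).comp (Ideal.Quotient.mkₐ K 𝔫), fun b hb => ?_⟩
  have : Ideal.Quotient.mk 𝔫 b = 0 := Ideal.Quotient.eq_zero_iff_mem.2 hb
  simp [this]

theorem ext : S_EXT := by
  intro K σ ι _ _ _ _ 𝔓 G x y P h𝔓 hG hind hP
  classical
  have := h𝔓
  -- the ring
  let B := Localization.Away (Ideal.Quotient.mk 𝔓 G)
  have hG0 : Ideal.Quotient.mk 𝔓 G ≠ 0 := fun h => hG (Ideal.Quotient.eq_zero_iff_mem.1 h)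
  have hle : Submonoid.powers (Ideal.Quotient.mk 𝔓 G) ≤ nonZeroDivisors (MvPolynomial σ K ⧸ 𝔓) :=
    powers_le_nonZeroDivisors_of_noZeroDivisors hG0
  have : IsDomain B := IsLocalization.isDomain_localization hle
  have hinjB : Function.Injective (algebraMap (MvPolynomial σ K ⧸ 𝔓) B) :=
    IsLocalization.injective B hle
  have : Algebra.FiniteType (MvPolynomial σ K ⧸ 𝔓) B :=
    IsLocalization.finiteType_of_monoid_fg (Submonoid.powers (Ideal.Quotient.mk 𝔓 G)) B
  have : Algebra.FiniteType K (MvPolynomial σ K ⧸ 𝔓) := inferInstance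
  have : IsScalarTower K (MvPolynomial σ K ⧸ 𝔓) B := inferInstance
  have : Algebra.FiniteType K B := Algebra.FiniteType.trans (S := MvPolynomial σ K ⧸ 𝔓) ‹_› ‹_›
  let π : MvPolynomial σ K →ₐ[K] B :=
    (IsScalarTower.toAlgHom K (MvPolynomial σ K ⧸ 𝔓) B).comp (Ideal.Quotient.mkₐ K 𝔓)
  have hπ𝔓 : ∀ p ∈ 𝔓, π p = 0 := by
    intro p hp
    have : Ideal.Quotient.mk 𝔓 p = 0 := Ideal.Quotient.eq_zero_iff_mem.2 hp
    simp [π, this]
  have hπG : IsUnit (π G) := by
    have := IsLocalization.Away.algebraMap_isUnit (S := B) (Ideal.Quotient.mk 𝔓 G)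
    simpa [π] using this
  -- the map
  let f : MvPolynomial (Option ι) K →ₐ[K] B := aeval fun o : Option ι => π (o.elim y x)
  have hf : Function.Injective f := by
    have h1 : f = (IsScalarTower.toAlgHom K (MvPolynomial σ K ⧸ 𝔓) B).comp
        (aeval fun o : Option ι => Ideal.Quotient.mk 𝔓 (o.elim y x)) := by
      apply MvPolynomial.algHom_ext
      intro o
      simp [f, π]
    rw [h1]
    exact hinjB.comp hind
  have hfft : f.toRingHom.FiniteType := by
    have h2 : (f.toRingHom.comp (algebraMap K (MvPolynomial (Option ι) K))).FiniteType := by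
      have : f.toRingHom.comp (algebraMap K (MvPolynomial (Option ι) K)) = algebraMap K B := by
        exact f.comp_algebraMap
      rw [this]
      exact RingHom.finiteType_algebraMap.2 inferInstance
    exact RingHom.FiniteType.of_comp_finiteType h2
  have hffp : f.toRingHom.FinitePresentation := RingHom.FinitePresentation.of_finiteType.1 hfft
  -- Chevalley
  obtain ⟨S, hS⟩ := PrimeSpectrum.exists_constructibleSetData_iff.2
    (PrimeSpectrum.isConstructible_range_comap hffp)
  have hbot : (⟨⊥, Ideal.isPrime_bot⟩ : PrimeSpectrum (MvPolynomial (Option ι) K)) ∈ S.toSet := by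
    rw [hS]
    refine ⟨⟨⊥, Ideal.isPrime_bot⟩, ?_⟩
    ext p
    simp only [PrimeSpectrum.comap_asIdeal, Ideal.mem_comap, Ideal.mem_bot]
    constructor
    · intro h
      exact hf (by simpa using h)
    · rintro rfl
      simp
  simp only [PrimeSpectrum.ConstructibleSetData.toSet, Set.mem_iUnion] at hbot
  obtain ⟨D, hD, hbD⟩ := hbot
  have hg : ∀ i, D.g i = 0 := by
    intro i
    have := hbD.1
    rw [PrimeSpectrum.mem_zeroLocus] at this
    simpa using this ⟨i, rfl⟩
  have hfne : D.f ≠ 0 := by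
    intro h
    apply hbD.2
    rw [PrimeSpectrum.mem_zeroLocus, h]
    simp
  have hext : ∀ z : Option ι → K, eval z D.f ≠ 0 →
      ∃ w : σ → K, (∀ p ∈ 𝔓, eval w p = 0) ∧ eval w G ≠ 0 ∧ (∀ i, eval w (x i) = z (some i)) ∧
        eval w y = z none := by
    intro z hz
    let 𝔪 : Ideal (MvPolynomial (Option ι) K) := RingHom.ker (eval z)
    have h𝔪 : 𝔪.IsMaximal := RingHom.ker_isMaximal_of_surjective (eval z)
      (fun k => ⟨C k, by simp⟩)
    have := h𝔪.isPrime
    have hmem : (⟨𝔪, h𝔪.isPrime⟩ : PrimeSpectrum (MvPolynomial (Option ι) K)) ∈ S.toSet := by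
      simp only [PrimeSpectrum.ConstructibleSetData.toSet, Set.mem_iUnion]
      refine ⟨D, hD, ?_, ?_⟩
      · rw [PrimeSpectrum.mem_zeroLocus]
        rintro _ ⟨i, rfl⟩
        rw [hg i]
        exact Ideal.zero_mem _
      · rw [PrimeSpectrum.mem_zeroLocus]
        intro h
        exact hz (RingHom.mem_ker.1 (h (Set.mem_singleton _)))
    rw [hS] at hmem
    obtain ⟨𝔭, h𝔭⟩ := hmem
    obtain ⟨𝔫, h𝔫, h𝔭𝔫⟩ := Ideal.exists_le_maximal 𝔭.asIdeal 𝔭.isPrime.ne_top
    obtain ⟨ψ, hψ⟩ := exists_point (K := K) 𝔫 h𝔫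
    have h𝔪ψ : ∀ p ∈ 𝔪, ψ (f p) = 0 := by
      intro p hp
      apply hψ
      apply h𝔭𝔫
      have h3 : p ∈ (PrimeSpectrum.comap f.toRingHom 𝔭).asIdeal := by rw [h𝔭]; exact hp
      simpa using h3
    have hψf : ∀ o, ψ (f (X o)) = z o := by
      intro o
      have h4 := h𝔪ψ (X o - C (z o)) (by simp [𝔪, RingHom.mem_ker])
      rw [map_sub, map_sub, sub_eq_zero] at h4
      rw [h4]
      have h5 : f (C (z o)) = algebraMap K B (z o) := f.commutes (z o)
      rw [h5, ψ.commutes]
      rfl
    have hev : ∀ p : MvPolynomial σ K, eval (fun v => ψ (π (X v))) p = ψ (π p) := by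
      intro p
      have h6 : (aeval fun v => ψ (π (X v)) : MvPolynomial σ K →ₐ[K] K) = ψ.comp π := by
        apply MvPolynomial.algHom_ext
        intro v
        simp
      have h7 := congrArg (fun φ : MvPolynomial σ K →ₐ[K] K => φ p) h6
      simpa [MvPolynomial.coe_aeval_eq_eval] using h7
    refine ⟨fun v => ψ (π (X v)), ?_, ?_, ?_, ?_⟩
    · intro p hp
      rw [hev, hπ𝔓 p hp, map_zero]
    · rw [hev]
      exact (hπG.map ψ).ne_zero
    · intro i
      rw [hev, ← hψf (some i)]
      simp [f]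
    · rw [hev, ← hψf none]
      simp [f]
  -- choice of the fibre
  have : Infinite K := IsAlgClosed.instInfinite
  have hP' : rename (some : ι → Option ι) P ≠ 0 := by
    intro h
    exact hP (rename_injective _ (Option.some_injective ι) (by simpa using h))
  have hne : D.f * rename (some : ι → Option ι) P ≠ 0 := mul_ne_zero hfne hP'
  obtain ⟨z, hz⟩ : ∃ z : Option ι → K, eval z (D.f * rename (some : ι → Option ι) P) ≠ 0 := by
    by_contra hcon
    push Not at hcon
    exact hne (MvPolynomial.funext fun z => by simpa using hcon z)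
  rw [map_mul] at hz
  have hz1 := left_ne_zero_of_mul hz
  have hz2 := right_ne_zero_of_mul hz
  refine ⟨fun i => z (some i), ?_, ?_⟩
  · rw [eval_rename] at hz2
    exact hz2
  · let q : Polynomial K := aeval (fun o : Option ι => o.elim Polynomial.X
      fun i => Polynomial.C (z (some i))) D.f
    have hq : ∀ c : K, q.eval c = eval (fun o : Option ι => o.elim c fun i => z (some i)) D.f := by
      intro c
      have h8 : ((Polynomial.aeval c : Polynomial K →ₐ[K] K).comp
          (aeval (fun o : Option ι => o.elim Polynomial.X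
            fun i => Polynomial.C (z (some i))) : MvPolynomial (Option ι) K →ₐ[K] Polynomial K)) =
          aeval (fun o : Option ι => o.elim c fun i => z (some i)) := by
        apply MvPolynomial.algHom_ext
        rintro (_ | i)
        · simp
        · simp
      have h9 := congrArg (fun φ : MvPolynomial (Option ι) K →ₐ[K] K => φ D.f) h8
      simpa [q, MvPolynomial.coe_aeval_eq_eval, Polynomial.coe_aeval_eq_eval] using h9
    have hq0 : q ≠ 0 := by
      intro h
      apply hz1
      have h10 := hq (z none)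
      rw [h, Polynomial.eval_zero] at h10
      rw [h10]
      congr 2
      funext o
      cases o <;> rfl
    have hfin : {c : K | q.eval c = 0}.Finite := by
      have := q.rootSet_finite K
      refine (q.roots.toFinset.finite_toSet).subset fun c hc => ?_
      simp only [Finset.mem_coe, Multiset.mem_toFinset]
      exact (Polynomial.mem_roots hq0).2 hc
    have hinf : ({c : K | q.eval c = 0}ᶜ).Infinite := hfin.infinite_compl
    refine hinf.mono fun c hc => ?_
    have hc' : eval (fun o : Option ι => o.elim c fun i => z (some i)) D.f ≠ 0 := by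
      rw [← hq]; exact hc
    obtain ⟨w, hw1, hw2, hw3, hw4⟩ := hext _ hc'
    exact ⟨w, hw1, hw2, hw3, hw4⟩

end Pool.Agent.W382.VF
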